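import Pool.Agent.Helper49.TF.St

set_option autoImplicit false

namespace Pool.Agent.Helper75.TF

open Pool.Agent.Helper25.PF Pool.Agent.Helper49.TF

theorem lk_le_top (t : T) : ∀ (v w : List ℕ) (f d : ℕ), lk t v w = some (f, d) → f ≤ top t := by
  induction t with
  | l f' d' =>
    intro v w f d h
    rw [lk_l] at h
    have := (Prod.mk.inj (Option.some.inj h)).1
    rw [← this]
    exact le_rfl
  | b p =>
    intro v w f d h
    rw [lk_b] at h
    exact absurd h (by simp)
  | n t0 t1 ih0 ih1 =>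
    intro v w f d h
    cases v with
    | nil => rw [lk_n_nil] at h; exact absurd h (by simp)
    | cons a v =>
      cases w with
      | nil => rw [lk_n_cons_nil] at h; exact absurd h (by simp)
      | cons c w =>
        rw [lk_n] at h
        cases hb : Nat.beq a c with
        | true =>
          rw [hb] at h
          exact (ih0 v w f d h).trans (le_max_left _ _)
        | false =>
          rw [hb] at h
          exact (ih1 v w f d h).trans (le_max_right _ _)

theorem ne_of_KFs {e : ℕ → ℕ} {P q : ℕ} {v : List ℕ} (hqP : q < P) (he : ∀ p, p ≤ q → e p = 0)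
    (hK : KFs e P v) (s p : ℕ) (hp1 : 1 ≤ p) (hpq : p ≤ q) (hs : s + p < v.length) :
    v[s]? ≠ v[s + p]? := by
  intro heq
  have h := hK p hp1 (by omega) s
  rw [he p hpq] at h
  have h1 : 1 ≤ sp (v.drop s) p := by
    rw [le_sp_iff, List.length_drop]
    refine ⟨by omega, fun i hi => ?_⟩
    obtain rfl : i = 0 := by omega
    rw [List.getElem?_drop, List.getElem?_drop]
    simpa using heq
  omega

theorem cand {e : ℕ → ℕ} {P q : ℕ} {v : List ℕ} (hq1 : 1 ≤ q) (hq3 : q + 2 ≤ 5) (hqP : q < P)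
    (he : ∀ p, p ≤ q → e p = 0) (hK : KFs e P v) (hl : ∀ c ∈ v, c < q + 2)
    (hlen : q + 1 ≤ v.length) :
    v.getD q 0 < q + 2 ∧ ms q v < q + 2 ∧ v.getD q 0 ≠ ms q v ∧
      ∀ c, c < q + 2 → ¬ Sb e P v c → c = v.getD q 0 ∨ c = ms q v := by
  have hne := fun s p hp1 hpq hs => ne_of_KFs (v := v) hqP he hK s p hp1 hpq hs
  have hsb : ∀ c, ¬ Sb e P v c → ∀ p, 1 ≤ p → p ≤ q → v[p - 1]? ≠ some c := by
    intro c hc p hp1 hpq h
    exact hc ⟨p, hp1, by omega, by rw [he p hpq]; exact Nat.zero_le _, h⟩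
  have hq : q = 1 ∨ q = 2 ∨ q = 3 := by omega
  rcases hq with rfl | rfl | rfl
  · match v, hl, hlen, hne, hsb with
    | x0 :: x1 :: t, hl, hlen, hne, hsb =>
      have a0 := hl x0 (by simp)
      have a1 := hl x1 (by simp)
      have n1 := hne 0 1 (by omega) (by omega) (by simp)
      simp at n1
      have hms : ms 1 (x0 :: x1 :: t) = 3 - (x0 + x1) := by simp [ms]
      have hg : (x0 :: x1 :: t).getD 1 0 = x1 := by simp
      rw [hms, hg]
      refine ⟨a1, by omega, by omega, fun c hc hcs => ?_⟩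
      have m1 := hsb c hcs 1 (by omega) (by omega)
      simp at m1
      omega
  · match v, hl, hlen, hne, hsb with
    | x0 :: x1 :: x2 :: t, hl, hlen, hne, hsb =>
      have a0 := hl x0 (by simp)
      have a1 := hl x1 (by simp)
      have a2 := hl x2 (by simp)
      have n1 := hne 0 1 (by omega) (by omega) (by simp)
      have n2 := hne 0 2 (by omega) (by omega) (by simp)
      have n3 := hne 1 1 (by omega) (by omega) (by simp)
      simp at n1 n2 n3
      have hms : ms 2 (x0 :: x1 :: x2 :: t) = 6 - (x0 + (x1 + x2)) := by simp [ms]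
      have hg : (x0 :: x1 :: x2 :: t).getD 2 0 = x2 := by simp
      rw [hms, hg]
      refine ⟨a2, by omega, by omega, fun c hc hcs => ?_⟩
      have m1 := hsb c hcs 1 (by omega) (by omega)
      have m2 := hsb c hcs 2 (by omega) (by omega)
      simp at m1 m2
      omega
  · match v, hl, hlen, hne, hsb with
    | x0 :: x1 :: x2 :: x3 :: t, hl, hlen, hne, hsb =>
      have a0 := hl x0 (by simp)
      have a1 := hl x1 (by simp)
      have a2 := hl x2 (by simp)
      have a3 := hl x3 (by simp)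
      have n1 := hne 0 1 (by omega) (by omega) (by simp)
      have n2 := hne 0 2 (by omega) (by omega) (by simp)
      have n3 := hne 0 3 (by omega) (by omega) (by simp)
      have n4 := hne 1 1 (by omega) (by omega) (by simp)
      have n5 := hne 1 2 (by omega) (by omega) (by simp)
      have n6 := hne 2 1 (by omega) (by omega) (by simp)
      simp at n1 n2 n3 n4 n5 n6
      have hms : ms 3 (x0 :: x1 :: x2 :: x3 :: t) = 10 - (x0 + (x1 + (x2 + x3))) := by simp [ms]
      have hg : (x0 :: x1 :: x2 :: x3 :: t).getD 3 0 = x3 := by simp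
      rw [hms, hg]
      refine ⟨a3, by omega, by omega, fun c hc hcs => ?_⟩
      have m1 := hsb c hcs 1 (by omega) (by omega)
      have m2 := hsb c hcs 2 (by omega) (by omega)
      have m3 := hsb c hcs 3 (by omega) (by omega)
      simp at m1 m2 m3
      omega

theorem KFs_cons {e : ℕ → ℕ} {P : ℕ} {v : List ℕ} {c : ℕ} (hK : KFs e P v)
    (hc : ¬ Sb e P v c) : KFs e P (c :: v) := by
  intro p hp1 hpP s
  cases s with
  | succ s => simpa using hK p hp1 hpP s
  | zero =>
    rw [List.drop_zero, sp_cons c v p hp1]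
    split_ifs with h
    · by_contra hlt
      exact hc ⟨p, hp1, hpP, by omega, h⟩
    · exact Nat.zero_le _

theorem dead {e : ℕ → ℕ} {P q lam : ℕ} {ws : List ℕ} {T0 : T} (hq1 : 1 ≤ q) (hq3 : q + 2 ≤ 5)
    (hqP : q < P) (he : ∀ p, p ≤ q → e p = 0)
    (hL : ∀ v : List ℕ, KFs e P v → (∀ c ∈ v, c < q + 2) → dep T0 + q + 1 ≤ v.length →
      Lq q e P ws lam T0 v) :
    ∀ (d : ℕ) (v : List ℕ) (f : ℕ), KFs e P v → (∀ c ∈ v, c < q + 2) →
      dep T0 + q + 1 ≤ v.length → look q T0 v = some (f, d) → d < 50 → DP e P (q + 2) d v := by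
  intro d
  induction d with
  | zero =>
    intro v f hK hl hlen hlook _
    obtain ⟨g0, g1, g2, g3⟩ := cand hq1 hq3 hqP he hK hl (by omega)
    obtain ⟨f', d', b0, b1, u0, u1, h1, h2, h3, h4, h5, h6⟩ := hL v hK hl hlen
    rw [hlook] at h1
    obtain ⟨rfl, rfl⟩ := Prod.mk.inj (Option.some.inj h1)
    intro c hc
    by_contra hns
    have hboth : b0 = true ∧ b1 = true := by
      cases b0 <;> cases b1
      · exfalso
        rcases h0 : look q T0 (v.getD q 0 :: v) with _ | ⟨f0, d0⟩ <;>
          rcases h0' : look q T0 (ms q v :: v) with _ | ⟨f1, d1⟩ <;>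
          rw [h0, h0'] at h6 <;> simp [lres] at h6
      · exfalso
        rcases h0 : look q T0 (v.getD q 0 :: v) with _ | ⟨f0, d0⟩ <;>
          rw [h0] at h6 <;> simp [lres] at h6
      · exfalso
        rcases h0' : look q T0 (ms q v :: v) with _ | ⟨f1, d1⟩ <;>
          rw [h0'] at h6 <;> simp [lres] at h6
      · exact ⟨rfl, rfl⟩
    rcases g3 c hc hns with rfl | rfl
    · exact hns (h2 hboth.1)
    · exact hns (h3 hboth.2)
  | succ d ih =>
    intro v f hK hl hlen hlook hd50
    obtain ⟨g0, g1, g2, g3⟩ := cand hq1 hq3 hqP he hK hl (by omega)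
    obtain ⟨f', d', b0, b1, u0, u1, h1, h2, h3, h4, h5, h6⟩ := hL v hK hl hlen
    rw [hlook] at h1
    obtain ⟨rfl, rfl⟩ := Prod.mk.inj (Option.some.inj h1)
    have key : ∀ c, c < q + 2 → ¬ Sb e P v c → ∀ f1, look q T0 (c :: v) = some (f1, d) →
        DP e P (q + 2) (d + 1) v := by
      intro c hc hns f1 hl1
      refine ⟨c, hc, hns, ih (c :: v) f1 (KFs_cons hK hns) ?_ ?_ hl1 (by omega)⟩
      · intro x hx
        rcases List.mem_cons.1 hx with rfl | hx
        · exact hc
        · exact hl x hx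
      · rw [List.length_cons]; omega
    cases b0 <;> cases b1
    · rcases h0 : look q T0 (v.getD q 0 :: v) with _ | ⟨f0, d0⟩
      · rw [h0] at h6; simp [lres] at h6
      rcases h0' : look q T0 (ms q v :: v) with _ | ⟨f1, d1⟩
      · rw [h0, h0'] at h6; simp [lres] at h6
      rw [h0, h0'] at h6
      simp only [lres, Bool.and_eq_true, Bool.or_eq_true, Nat.ble_eq, Nat.beq_eq] at h6
      rcases h6.2 with (h7 | h7) | h7
      · omega
      · obtain ⟨h8, h9⟩ := h7
        obtain rfl : d0 = d := by omega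
        exact key _ g0 (h4 h9 rfl) f0 h0
      · obtain ⟨h8, h9⟩ := h7
        obtain rfl : d1 = d := by omega
        exact key _ g1 (h5 h9 rfl) f1 h0'
    · rcases h0 : look q T0 (v.getD q 0 :: v) with _ | ⟨f0, d0⟩
      · rw [h0] at h6; simp [lres] at h6
      rw [h0] at h6
      simp only [lres, Bool.and_eq_true, Bool.or_eq_true, Nat.ble_eq, Nat.beq_eq] at h6
      rcases h6.2 with h7 | h7
      · omega
      · obtain ⟨h8, h9⟩ := h7
        obtain rfl : d0 = d := by omega
        exact key _ g0 (h4 h9 rfl) f0 h0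
    · rcases h0' : look q T0 (ms q v :: v) with _ | ⟨f1, d1⟩
      · rw [h0'] at h6; simp [lres] at h6
      rw [h0'] at h6
      simp only [lres, Bool.and_eq_true, Bool.or_eq_true, Nat.ble_eq, Nat.beq_eq] at h6
      rcases h6.2 with h7 | h7
      · omega
      · obtain ⟨h8, h9⟩ := h7
        obtain rfl : d1 = d := by omega
        exact key _ g1 (h5 h9 rfl) f1 h0'
    · simp only [lres, Bool.or_eq_true, Nat.ble_eq, Nat.beq_eq] at h6
      omega

/-- A letter that is not short-blocked and does not extend is blocked by a long match. -/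
theorem long_block {e : ℕ → ℕ} {P : ℕ} {v : List ℕ} {b : ℕ} (hK : KF e v)
    (hb : ¬ KF e (b :: v)) (hs : ¬ Sb e P v b) :
    ∃ p, P ≤ p ∧ e p ≤ sp v p ∧ v[p - 1]? = some b := by
  by_contra hcon
  push Not at hcon
  apply hb
  rw [KF_cons_iff]
  refine ⟨fun p hp => ?_, hK⟩
  rw [sp_cons b v p hp]
  split_ifs with h
  · by_contra hlt
    by_cases hpP : P ≤ p
    · exact hcon p hpP (by omega) h
    · exact hs ⟨p, hp, by omega, by omega, h⟩
  · exact Nat.zero_le _

theorem p_STP : S_CHN → S_EVT → S_SND → S_STP := by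
  intro hCHN hEVT hSND κ q P N0 lam es el ws T0 hκ hq1 hq3 hqP hes hel hee heq hN0 hws1 hws2 hPack hchk
    w hwK hwl
  by_contra hcon
  push Not at hcon
  have he : ∀ p, p ≤ q → ee κ p = 0 := by
    intro p hp
    have := ee_mono hκ p q hp
    omega
  have hL := hSND q (ee κ) P es el ws lam T0 hqP hq3 hq1 hes hel hee he hchk
  obtain ⟨E, hE⟩ : ∃ E : Set (List ℕ), E = {u | KF (ee κ) u ∧ (∀ c ∈ u, c < q + 2) ∧ w <:+ u ∧
    dep T0 + q + 1 ≤ u.length} := ⟨_, rfl⟩
  have hmem : ∀ u, u ∈ E ↔ KF (ee κ) u ∧ (∀ c ∈ u, c < q + 2) ∧ w <:+ u ∧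
      dep T0 + q + 1 ≤ u.length := by
    intro u; rw [hE]; rfl
  have hclose : ∀ u ∈ E, ∀ a, a < q + 2 → KF (ee κ) (a :: u) → a :: u ∈ E := by
    intro u hu a ha hK
    rw [hmem] at hu ⊢
    refine ⟨hK, ?_, hu.2.2.1.trans (List.suffix_cons a u), ?_⟩
    · intro c hc
      rcases List.mem_cons.1 hc with rfl | hc
      · exact ha
      · exact hu.2.1 c hc
    · rw [List.length_cons]
      have := hu.2.2.2
      omega
  have hext : ∀ u ∈ E, ∃ a, a < q + 2 ∧ a :: u ∈ E := by
    intro u hu
    have hu' := (hmem u).1 hu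
    obtain ⟨a, ha, hK⟩ := hcon u hu'.1 hu'.2.1 hu'.2.2.1
    exact ⟨a, ha, hclose u hu a ha hK⟩
  have hlong : ∀ m : ℕ, ∃ u, KF (ee κ) u ∧ (∀ c ∈ u, c < q + 2) ∧ w <:+ u ∧ m ≤ u.length := by
    intro m
    induction m with
    | zero => exact ⟨w, hwK, hwl, List.suffix_rfl, Nat.zero_le _⟩
    | succ m ih =>
      obtain ⟨u, h1, h2, h3, h4⟩ := ih
      obtain ⟨a, ha, hK⟩ := hcon u h1 h2 h3
      refine ⟨a :: u, hK, ?_, h3.trans (List.suffix_cons a u), ?_⟩
      · intro c hc
        rcases List.mem_cons.1 hc with rfl | hc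
        · exact ha
        · exact h2 c hc
      · rw [List.length_cons]; omega
  have hne : E.Nonempty := by
    obtain ⟨u, hu⟩ := hlong (dep T0 + q + 1)
    exact ⟨u, (hmem u).2 hu⟩
  have hKs : ∀ v ∈ E, KFs (ee κ) P v := by
    intro v hv p hp _ s
    exact (KF_iff_sp _ _).1 ((hmem v).1 hv).1 s p hp
  obtain ⟨F, hF⟩ : ∃ F : List ℕ → ℕ, F = fun v => ((look q T0 v).getD (0, 0)).1 := ⟨_, rfl⟩
  have hFe : ∀ v f d, look q T0 v = some (f, d) → F v = f := by
    intro v f d h
    rw [hF]
    simp only [h, Option.getD_some]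
  refine hCHN κ P N0 (top T0) lam (fun δ => ws.getD (δ - 1) 0) E F hκ hPack hN0 hne
    (fun v hv => ((hmem v).1 hv).1) ?_ ?_
  · intro v _
    rcases h : look q T0 v with _ | ⟨f, d⟩
    · rw [hF]
      simp [h]
    · rw [hFe v f d h]
      exact lk_le_top T0 _ _ f d h
  · intro v hv
    have hv' := (hmem v).1 hv
    have hKv := hKs v hv
    obtain ⟨g0, g1, g2, g3⟩ := cand hq1 hq3 hqP he hKv hv'.2.1 (by omega)
    obtain ⟨f, d, b0, b1, u0, u1, h1, h2, h3, h4, h5, h6⟩ := hL v hKv hv'.2.1 hv'.2.2.2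
    obtain ⟨c0, hc0⟩ : ∃ c0, c0 = v.getD q 0 := ⟨_, rfl⟩
    obtain ⟨c1, hc1⟩ : ∃ c1, c1 = ms q v := ⟨_, rfl⟩
    rw [← hc0, ← hc1] at h6 g2
    rw [← hc0] at h2 h4 g0
    rw [← hc1] at h3 h5 g1
    rw [← hc0, ← hc1] at g3
    have hFv := hFe v f d h1
    -- short-blocked letters do not extend
    have hsb : ∀ a, a :: v ∈ E → ¬ Sb (ee κ) P v a := by
      rintro a ha ⟨p, hp1, _, hp3, hp4⟩
      have hK := ((hmem _).1 ha).1
      have := hK.sp_le hp1
      rw [sp_cons a v p hp1, if_pos hp4] at this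
      omega
    -- the event for a side letter `b`
    have hev0 : ∀ a b, a ≠ b → b < q + 2 → b :: v ∉ E → ¬ Sb (ee κ) P v b →
        ∀ r, r = ws.getD 0 0 → (r = 0 ∨ ∃ p δ, P ≤ p ∧ 1 ≤ δ ∧ δ < N0 ∧
          r ≤ (fun δ => ws.getD (δ - 1) 0) δ ∧ ee κ p + 1 ≤ sp v p + δ ∧ sp (a :: v) p = 0) := by
      intro a b hab hb hbE hns r hr
      by_cases hr0 : r = 0
      · exact Or.inl hr0
      right
      have hwl0 : 0 < ws.length := by
        by_contra h0
        apply hr0
        rw [hr, List.getD_eq_default _ _ (by omega)]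
      obtain ⟨p, hp1, hp2, hp3⟩ := long_block (P := P) hv'.1 (fun hK => hbE (hclose v hv b hb hK)) hns
      refine ⟨p, 1, hp1, le_rfl, by omega, ?_, by omega, ?_⟩
      · simp only [Nat.sub_self]
        rw [hr]
      · rw [sp_cons a v p (by omega), if_neg]
        rw [hp3]
        intro h
        exact hab (Option.some.inj h).symm
    have hev1 : ∀ a b f' d', a ≠ b → b :: v ∈ E → look q T0 (b :: v) = some (f', d') →
        ∀ r, r = ws.getD d' 0 → (r = 0 ∨ ∃ p δ, P ≤ p ∧ 1 ≤ δ ∧ δ < N0 ∧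
          r ≤ (fun δ => ws.getD (δ - 1) 0) δ ∧ ee κ p + 1 ≤ sp v p + δ ∧ sp (a :: v) p = 0) := by
      intro a b f' d' hab hbE hlk r hr
      by_cases hr0 : r = 0
      · exact Or.inl hr0
      right
      have hd' : d' < ws.length := by
        by_contra h0
        apply hr0
        rw [hr, List.getD_eq_default _ _ (by omega)]
      have hb' := (hmem _).1 hbE
      have hDP := dead hq1 hq3 hqP he hL d' (b :: v) f' (hKs _ hbE) hb'.2.1 hb'.2.2.2 hlk (by omega)
      obtain ⟨p, hp1, hp2, hp3⟩ := hEVT (ee κ) P (q + 2) d' v b E (fun a b hab => ee_mono hκ a b hab)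
        (by omega) (by omega) (fun u hu => ((hmem u).1 hu).1) hext hclose hbE hDP
      refine ⟨p, 1 + d', hp1, by omega, by omega, ?_, hp2, ?_⟩
      · show r ≤ ws.getD (1 + d' - 1) 0
        rw [Nat.add_sub_cancel_left, hr]
      · rw [sp_cons a v p (by omega), if_neg]
        rw [hp3]
        intro h
        exact hab (Option.some.inj h).symm
    obtain ⟨a, ha, haE⟩ := hext v hv
    have hac := g3 a ha (hsb a haE)
    cases b0 <;> cases b1
    · -- no visible block
      rcases h0 : look q T0 (c0 :: v) with _ | ⟨f0, d0⟩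
      · rw [h0] at h6; simp [lres] at h6
      rcases h0' : look q T0 (c1 :: v) with _ | ⟨f1, d1⟩
      · rw [h0, h0'] at h6; simp [lres] at h6
      rw [h0, h0'] at h6
      simp only [lres, Bool.and_eq_true, Bool.or_eq_true, Nat.ble_eq] at h6
      obtain ⟨⟨⟨hAB, hC⟩, hD⟩, -⟩ := h6
      have hF0 := hFe _ f0 d0 h0
      have hF1 := hFe _ f1 d1 h0'
      by_cases he0 : c0 :: v ∈ E
      · by_cases he1 : c1 :: v ∈ E
        · rcases hAB with hA | hB
          · refine ⟨c0, he0, _, by rw [hFv, hF0]; exact hA, ?_⟩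
            cases u1
            · exact Or.inl rfl
            · exact hev1 c0 c1 f1 d1 g2 he1 h0' _ rfl
          · refine ⟨c1, he1, _, by rw [hFv, hF1]; exact hB, ?_⟩
            cases u0
            · exact Or.inl rfl
            · exact hev1 c1 c0 f0 d0 (Ne.symm g2) he0 h0 _ rfl
        · refine ⟨c0, he0, _, by rw [hFv, hF0]; exact hD, ?_⟩
          cases hu1 : u1
          · exact Or.inl rfl
          · exact hev0 c0 c1 g2 g1 he1 (h5 hu1 rfl) _ rfl
      · have he1 : c1 :: v ∈ E := by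
          rcases hac with rfl | rfl
          · exact absurd haE he0
          · exact haE
        refine ⟨c1, he1, _, by rw [hFv, hF1]; exact hC, ?_⟩
        cases hu0 : u0
        · exact Or.inl rfl
        · exact hev0 c1 c0 (Ne.symm g2) g0 he0 (h4 hu0 rfl) _ rfl
    · -- `c1` is blocked
      have hac0 : a = c0 := by
        rcases hac with h | h
        · exact h
        · exfalso
          rw [h] at haE
          exact hsb c1 haE (h3 rfl)
      rw [hac0] at haE
      rcases h0 : look q T0 (c0 :: v) with _ | ⟨f0, d0⟩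
      · rw [h0] at h6; simp [lres] at h6
      rw [h0] at h6
      simp only [lres, Bool.and_eq_true, Bool.or_eq_true, Nat.ble_eq] at h6
      refine ⟨c0, haE, 0, ?_, Or.inl rfl⟩
      rw [hFv, hFe _ f0 d0 h0]
      exact h6.1
    · -- `c0` is blocked
      have hac1 : a = c1 := by
        rcases hac with h | h
        · exfalso
          rw [h] at haE
          exact hsb c0 haE (h2 rfl)
        · exact h
      rw [hac1] at haE
      rcases h0' : look q T0 (c1 :: v) with _ | ⟨f1, d1⟩
      · rw [h0'] at h6; simp [lres] at h6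
      rw [h0'] at h6
      simp only [lres, Bool.and_eq_true, Bool.or_eq_true, Nat.ble_eq] at h6
      refine ⟨c1, haE, 0, ?_, Or.inl rfl⟩
      rw [hFv, hFe _ f1 d1 h0']
      exact h6.1
    · exfalso
      rcases hac with h | h
      · rw [h] at haE
        exact hsb c0 haE (h2 rfl)
      · rw [h] at haE
        exact hsb c1 haE (h3 rfl)

end Pool.Agent.Helper75.TF
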